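import Pool.Agent.Helper33.Iso.Goals

/-!
# The Eckmann–Hilton argument

A map from a sphere of the form `Q (f z, g z)` is deformed to a constant by moving the supports of
`f` and `g` to the two halves of the cube.
-/

set_option autoImplicit false

open Topology unitInterval
open Pool.Agent.Helper72.Orb

namespace Pool.Agent.Helper13.Iso

universe u v

noncomputable section

/-- Concatenation of homotopies which are constant on `S` at each time. -/
theorem trans_bd {X Y : Type*} [TopologicalSpace X] [TopologicalSpace Y] {f0 f1 f2 : C(X, Y)}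
    (F : f0.Homotopy f1) (G : f1.Homotopy f2) (S : Set X)
    (hF : ∀ t, ∀ x ∈ S, ∀ y ∈ S, F (t, x) = F (t, y))
    (hG : ∀ t, ∀ x ∈ S, ∀ y ∈ S, G (t, x) = G (t, y)) :
    ∀ t, ∀ x ∈ S, ∀ y ∈ S, (F.trans G) (t, x) = (F.trans G) (t, y) := by
  intro t x hx y hy
  rw [ContinuousMap.Homotopy.trans_apply, ContinuousMap.Homotopy.trans_apply]
  split_ifs
  · exact hF _ x hx y hy
  · exact hG _ x hx y hy

/-- Stretching the interval, the right part goes to `1`. -/
def lamI (t a : I) : I :=
  ⟨min 1 ((1 + (t : ℝ)) * a), le_min zero_le_one (mul_nonneg (by linarith [t.2.1]) a.2.1),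
    min_le_left _ _⟩

/-- Stretching the interval, the left part goes to `0`. -/
def muI (t a : I) : I :=
  ⟨max 0 ((1 + (t : ℝ)) * a - t), le_max_left _ _, max_le zero_le_one (by
    have h1 := mul_le_mul_of_nonneg_left a.2.2 (by linarith [t.2.1] : (0 : ℝ) ≤ 1 + t)
    linarith)⟩

theorem continuous_lamI : Continuous fun q : I × I => lamI q.1 q.2 := by
  apply Continuous.subtype_mk
  fun_prop

theorem continuous_muI : Continuous fun q : I × I => muI q.1 q.2 := by
  apply Continuous.subtype_mk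
  fun_prop

theorem lamI_zero_left (a : I) : lamI 0 a = a := by
  apply Subtype.ext
  change min 1 ((1 + ((0 : I) : ℝ)) * a) = (a : ℝ)
  rw [Set.Icc.coe_zero, add_zero, one_mul]
  exact min_eq_right a.2.2

theorem muI_zero_left (a : I) : muI 0 a = a := by
  apply Subtype.ext
  change max 0 ((1 + ((0 : I) : ℝ)) * a - ((0 : I) : ℝ)) = (a : ℝ)
  rw [Set.Icc.coe_zero, add_zero, one_mul, sub_zero]
  exact max_eq_right a.2.1

theorem lamI_zero (t : I) : lamI t 0 = 0 := by
  apply Subtype.ext
  change min 1 ((1 + (t : ℝ)) * ((0 : I) : ℝ)) = ((0 : I) : ℝ)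
  rw [Set.Icc.coe_zero, mul_zero]
  exact min_eq_right zero_le_one

theorem lamI_one (t : I) : lamI t 1 = 1 := by
  apply Subtype.ext
  change min 1 ((1 + (t : ℝ)) * ((1 : I) : ℝ)) = ((1 : I) : ℝ)
  rw [Set.Icc.coe_one, mul_one]
  exact min_eq_left (by linarith [t.2.1])

theorem muI_zero (t : I) : muI t 0 = 0 := by
  apply Subtype.ext
  change max 0 ((1 + (t : ℝ)) * ((0 : I) : ℝ) - t) = ((0 : I) : ℝ)
  rw [Set.Icc.coe_zero, mul_zero, zero_sub]
  exact max_eq_left (by linarith [t.2.1])

theorem muI_one (t : I) : muI t 1 = 1 := by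
  apply Subtype.ext
  change max 0 ((1 + (t : ℝ)) * ((1 : I) : ℝ) - t) = ((1 : I) : ℝ)
  rw [Set.Icc.coe_one, mul_one, add_sub_cancel_right]
  exact max_eq_right zero_le_one

/-- At time `1`, one of the two coordinates is an end point. -/
theorem lamI_or_muI (a : I) : lamI 1 a = 1 ∨ muI 1 a = 0 := by
  rcases le_total (1 / 2 : ℝ) a with h | h
  · left
    apply Subtype.ext
    change min 1 ((1 + ((1 : I) : ℝ)) * a) = ((1 : I) : ℝ)
    rw [Set.Icc.coe_one]
    exact min_eq_left (by linarith)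
  · right
    apply Subtype.ext
    change max 0 ((1 + ((1 : I) : ℝ)) * a - ((1 : I) : ℝ)) = ((0 : I) : ℝ)
    rw [Set.Icc.coe_one, Set.Icc.coe_zero]
    exact max_eq_left (by linarith)

/-- Apply a map to the first coordinate. -/
def upd {N : ℕ} (φ : I → I → I) (t : I) (x : Fin N → I) : Fin N → I :=
  fun i => if (i : ℕ) = 0 then φ t (x i) else x i

theorem continuous_upd {N : ℕ} {φ : I → I → I} (hφ : Continuous fun q : I × I => φ q.1 q.2) :
    Continuous fun p : I × (Fin N → I) => upd φ p.1 p.2 := by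
  apply continuous_pi
  intro i
  unfold upd
  by_cases h : (i : ℕ) = 0
  · simp only [h, if_true]
    exact hφ.comp (continuous_fst.prodMk ((continuous_apply i).comp continuous_snd))
  · simp only [h, if_false]
    exact (continuous_apply i).comp continuous_snd

theorem upd_boundary {N : ℕ} {φ : I → I → I} (h0 : ∀ t, φ t 0 = 0) (h1 : ∀ t, φ t 1 = 1)
    (t : I) {x : Fin N → I} (hx : x ∈ Cube.boundary (Fin N)) :
    upd φ t x ∈ Cube.boundary (Fin N) := by
  obtain ⟨i, hi⟩ := hx
  refine ⟨i, ?_⟩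
  unfold upd
  by_cases h : (i : ℕ) = 0
  · rw [if_pos h]
    rcases hi with hi | hi
    · left; rw [hi, h0]
    · right; rw [hi, h1]
  · rw [if_neg h]
    exact hi

theorem upd_zero {N : ℕ} {φ : I → I → I} (h0 : ∀ a, φ 0 a = a) (x : Fin N → I) :
    upd φ 0 x = x := by
  funext i
  unfold upd
  by_cases h : (i : ℕ) = 0
  · rw [if_pos h, h0]
  · rw [if_neg h]

theorem upd_one {N : ℕ} (hN : 1 ≤ N) (x : Fin N → I) :
    upd lamI 1 x ∈ Cube.boundary (Fin N) ∨ upd muI 1 x ∈ Cube.boundary (Fin N) := by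
  rcases lamI_or_muI (x ⟨0, hN⟩) with h | h
  · left
    refine ⟨⟨0, hN⟩, Or.inr ?_⟩
    change (if ((⟨0, hN⟩ : Fin N) : ℕ) = 0 then lamI 1 (x ⟨0, hN⟩) else x ⟨0, hN⟩) = 1
    rw [if_pos rfl]
    exact h
  · right
    refine ⟨⟨0, hN⟩, Or.inl ?_⟩
    change (if ((⟨0, hN⟩ : Fin N) : ℕ) = 0 then muI 1 (x ⟨0, hN⟩) else x ⟨0, hN⟩) = 0
    rw [if_pos rfl]
    exact h

theorem gEH : Pool.Agent.Helper33.Iso.EH.{u, v} := by
  intro Z _ _ _ N hN hZ A B _ _ b f g Q e θ hQ hb hθ
  have hbn : ‖(b : Z)‖ = 1 := mem_sphere_zero_iff_norm.1 b.2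
  have hb0 : (b : Z) ≠ 0 := by
    intro h
    rw [h, norm_zero] at hbn
    exact zero_ne_one hbn
  obtain ⟨κ, hκ0, hκb, hκ⟩ := exists_kappa hN hZ (b : Z) hb0
  have hn : ∀ x, 0 < ‖κ x‖ := fun x => norm_pos_iff.2 (hκ0 x)
  -- the map to the sphere
  let k : C(Fin N → I, Metric.sphere (0 : Z) 1) :=
    { toFun := fun x => ⟨‖κ x‖⁻¹ • κ x, by
        rw [mem_sphere_zero_iff_norm, norm_smul, norm_inv, norm_norm,
          inv_mul_cancel₀ (hn x).ne']⟩
      continuous_toFun := by
        apply Continuous.subtype_mk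
        exact (κ.continuous.norm.inv₀ fun x => (hn x).ne').smul κ.continuous }
  have hkval : ∀ x, (k x : Z) = ‖κ x‖⁻¹ • κ x := fun x => rfl
  have hkb : ∀ x ∈ Cube.boundary (Fin N), k x = b := by
    intro x hx
    apply Subtype.ext
    rw [hkval, hκb x hx, hbn, inv_one, one_smul]
  -- the two stretched maps
  let la : C(I × (Fin N → I), A) := ⟨fun p => f (k (upd lamI p.1 p.2)),
    f.continuous.comp (k.continuous.comp (continuous_upd continuous_lamI))⟩
  let mb : C(I × (Fin N → I), B) := ⟨fun p => g (k (upd muI p.1 p.2)),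
    g.continuous.comp (k.continuous.comp (continuous_upd continuous_muI))⟩
  have hla : ∀ t x, la (t, x) = f (k (upd lamI t x)) := fun t x => rfl
  have hmb : ∀ t x, mb (t, x) = g (k (upd muI t x)) := fun t x => rfl
  have hlab : ∀ t, ∀ x ∈ Cube.boundary (Fin N), la (t, x) = f b := by
    intro t x hx
    rw [hla, hkb _ (upd_boundary lamI_zero lamI_one t hx)]
  have hmbb : ∀ t, ∀ x ∈ Cube.boundary (Fin N), mb (t, x) = g b := by
    intro t x hx
    rw [hmb, hkb _ (upd_boundary muI_zero muI_one t hx)]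
  have hla0 : ∀ x, la (0, x) = f (k x) := by
    intro x
    rw [hla, upd_zero lamI_zero_left]
  have hmb0 : ∀ x, mb (0, x) = g (k x) := by
    intro x
    rw [hmb, upd_zero muI_zero_left]
  have h1b : ∀ x, la (1, x) = f b ∨ mb (1, x) = g b := by
    intro x
    rcases upd_one hN x with h | h
    · left; rw [hla, hkb _ h]
    · right; rw [hmb, hkb _ h]
  -- the homotopies
  let Z0 : Type u := {z : Z // z ≠ 0}
  have hQc : Continuous fun x => Q (f (k x), g (k x)) :=
    Q.continuous.comp ((f.continuous.comp k.continuous).prodMk (g.continuous.comp k.continuous))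
  have hθc : Continuous fun x => (θ (k x) : ℝ) :=
    continuous_subtype_val.comp (θ.continuous.comp k.continuous)
  have he0 : e ≠ 0 := by
    have h := hb (f b) (g b) (Or.inl rfl) 1
    intro h0
    apply h
    rw [h0, Set.Icc.coe_one, sub_self, zero_smul, smul_zero, add_zero]
  let F0 : C(Fin N → I, Z0) :=
    ⟨fun x => ⟨(1 - ((1 : I) : ℝ) * (θ (k x) : ℝ)) • Q (f (k x), g (k x)) +
      (((1 : I) : ℝ) * (θ (k x) : ℝ)) • e, hθ (k x) 1⟩, by
      apply Continuous.subtype_mk
      exact ((continuous_const.sub (continuous_const.mul hθc)).smul hQc).add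
        ((continuous_const.mul hθc).smul continuous_const)⟩
  let F1 : C(Fin N → I, Z0) := ⟨fun x => ⟨Q (f (k x), g (k x)), hQ _⟩, hQc.subtype_mk _⟩
  let F2 : C(Fin N → I, Z0) := ⟨fun x => ⟨Q (la (1, x), mb (1, x)), hQ _⟩, by
    apply Continuous.subtype_mk
    exact Q.continuous.comp
      ((la.continuous.comp (continuous_const.prodMk continuous_id)).prodMk
        (mb.continuous.comp (continuous_const.prodMk continuous_id)))⟩
  let F3 : C(Fin N → I, Z0) := ContinuousMap.const _ ⟨e, he0⟩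
  let H1 : F0.Homotopy F1 :=
    { toFun := fun a => ⟨(1 - ((σ a.1 : I) : ℝ) * (θ (k a.2) : ℝ)) • Q (f (k a.2), g (k a.2)) +
        (((σ a.1 : I) : ℝ) * (θ (k a.2) : ℝ)) • e, hθ (k a.2) (σ a.1)⟩
      continuous_toFun := by
        apply Continuous.subtype_mk
        have c1 : Continuous fun a : I × (Fin N → I) => ((σ a.1 : I) : ℝ) :=
          continuous_subtype_val.comp (continuous_symm.comp continuous_fst)
        have c2 : Continuous fun a : I × (Fin N → I) => (θ (k a.2) : ℝ) :=
          hθc.comp continuous_snd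
        have c3 : Continuous fun a : I × (Fin N → I) => Q (f (k a.2), g (k a.2)) :=
          hQc.comp continuous_snd
        exact ((continuous_const.sub (c1.mul c2)).smul c3).add
          ((c1.mul c2).smul continuous_const)
      map_zero_left := fun x => Subtype.ext (by
        change (1 - ((σ (0 : I) : I) : ℝ) * (θ (k x) : ℝ)) • Q (f (k x), g (k x)) +
          (((σ (0 : I) : I) : ℝ) * (θ (k x) : ℝ)) • e =
          (1 - ((1 : I) : ℝ) * (θ (k x) : ℝ)) • Q (f (k x), g (k x)) +
          (((1 : I) : ℝ) * (θ (k x) : ℝ)) • e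
        rw [unitInterval.symm_zero])
      map_one_left := fun x => Subtype.ext (by
        change (1 - ((σ (1 : I) : I) : ℝ) * (θ (k x) : ℝ)) • Q (f (k x), g (k x)) +
          (((σ (1 : I) : I) : ℝ) * (θ (k x) : ℝ)) • e = Q (f (k x), g (k x))
        rw [unitInterval.symm_one, Set.Icc.coe_zero, zero_mul, sub_zero, one_smul, zero_smul,
          add_zero]) }
  let H2 : F1.Homotopy F2 :=
    { toFun := fun a => ⟨Q (la a, mb a), hQ _⟩
      continuous_toFun := by
        apply Continuous.subtype_mk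
        exact Q.continuous.comp (la.continuous.prodMk mb.continuous)
      map_zero_left := fun x => Subtype.ext (by
        change Q (la (0, x), mb (0, x)) = Q (f (k x), g (k x))
        rw [hla0, hmb0])
      map_one_left := fun x => rfl }
  let H3 : F2.Homotopy F3 :=
    { toFun := fun a => ⟨(1 - (a.1 : ℝ)) • Q (la (1, a.2), mb (1, a.2)) + (a.1 : ℝ) • e,
        hb _ _ (h1b a.2) a.1⟩
      continuous_toFun := by
        apply Continuous.subtype_mk
        have c1 : Continuous fun a : I × (Fin N → I) => (a.1 : ℝ) :=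
          continuous_subtype_val.comp continuous_fst
        have c2 : Continuous fun a : I × (Fin N → I) => ((1 : I), a.2) :=
          continuous_const.prodMk continuous_snd
        have c3 : Continuous fun a : I × (Fin N → I) => Q (la (1, a.2), mb (1, a.2)) :=
          Q.continuous.comp ((la.continuous.comp c2).prodMk (mb.continuous.comp c2))
        exact ((continuous_const.sub c1).smul c3).add (c1.smul continuous_const)
      map_zero_left := fun x => Subtype.ext (by
        change (1 - ((0 : I) : ℝ)) • Q (la (1, x), mb (1, x)) + ((0 : I) : ℝ) • e =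
          Q (la (1, x), mb (1, x))
        rw [Set.Icc.coe_zero, sub_zero, one_smul, zero_smul, add_zero])
      map_one_left := fun x => Subtype.ext (by
        change (1 - ((1 : I) : ℝ)) • Q (la (1, x), mb (1, x)) + ((1 : I) : ℝ) • e = e
        rw [Set.Icc.coe_one, sub_self, one_smul, zero_smul, zero_add]) }
  have hH1 : ∀ t, ∀ x ∈ Cube.boundary (Fin N), ∀ y ∈ Cube.boundary (Fin N),
      H1 (t, x) = H1 (t, y) := by
    intro t x hx y hy
    apply Subtype.ext
    change (1 - ((σ t : I) : ℝ) * (θ (k x) : ℝ)) • Q (f (k x), g (k x)) +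
        (((σ t : I) : ℝ) * (θ (k x) : ℝ)) • e =
      (1 - ((σ t : I) : ℝ) * (θ (k y) : ℝ)) • Q (f (k y), g (k y)) +
        (((σ t : I) : ℝ) * (θ (k y) : ℝ)) • e
    rw [hkb x hx, hkb y hy]
  have hH2 : ∀ t, ∀ x ∈ Cube.boundary (Fin N), ∀ y ∈ Cube.boundary (Fin N),
      H2 (t, x) = H2 (t, y) := by
    intro t x hx y hy
    apply Subtype.ext
    change Q (la (t, x), mb (t, x)) = Q (la (t, y), mb (t, y))
    rw [hlab t x hx, hlab t y hy, hmbb t x hx, hmbb t y hy]
  have hH3 : ∀ t, ∀ x ∈ Cube.boundary (Fin N), ∀ y ∈ Cube.boundary (Fin N),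
      H3 (t, x) = H3 (t, y) := by
    intro t x hx y hy
    apply Subtype.ext
    change (1 - (t : ℝ)) • Q (la (1, x), mb (1, x)) + (t : ℝ) • e =
      (1 - (t : ℝ)) • Q (la (1, y), mb (1, y)) + (t : ℝ) • e
    rw [hlab 1 x hx, hlab 1 y hy, hmbb 1 x hx, hmbb 1 y hy]
  have hHH := trans_bd (H1.trans H2) H3 (Cube.boundary (Fin N))
    (trans_bd H1 H2 (Cube.boundary (Fin N)) hH1 hH2) hH3
  let HH := (H1.trans H2).trans H3
  obtain ⟨x, t, ht0, ht1, hxt⟩ := hκ ⟨fun a => (HH a).1,
    continuous_subtype_val.comp HH.continuous⟩ (fun a => (HH a).2) (by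
      intro t x hx y hy
      exact congrArg Subtype.val (hHH t x hx y hy)) (by
      intro x y
      change (HH (1, x)).1 = (HH (1, y)).1
      rw [HH.apply_one, HH.apply_one]
      rfl)
  have hH0 : (HH (0, x)).1 = (1 - (θ (k x) : ℝ)) • Q (f (k x), g (k x)) +
      (θ (k x) : ℝ) • e := by
    rw [HH.apply_zero]
    change (1 - ((1 : I) : ℝ) * (θ (k x) : ℝ)) • Q (f (k x), g (k x)) +
      (((1 : I) : ℝ) * (θ (k x) : ℝ)) • e = _
    rw [Set.Icc.coe_one, one_mul]
  change (1 - t) • (HH (0, x)).1 + t • κ x = 0 at hxt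
  rw [hH0] at hxt
  have ht : t ≠ 1 := by
    intro h
    rw [h, sub_self, zero_smul, zero_add, one_smul] at hxt
    exact hκ0 x hxt
  have hpos : 0 < 1 - t := by
    rcases lt_or_eq_of_le ht1 with h | h
    · linarith
    · exact absurd h ht
  refine ⟨k x, (1 - t)⁻¹ * t * ‖κ x‖,
    mul_nonneg (mul_nonneg (inv_pos.2 hpos).le ht0) (norm_nonneg _), ?_⟩
  have h1 : (1 - t) • ((1 - (θ (k x) : ℝ)) • Q (f (k x), g (k x)) + (θ (k x) : ℝ) • e) =
      -(t • κ x) := eq_neg_of_add_eq_zero_left hxt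
  have h2 := congrArg (fun z => (1 - t)⁻¹ • z) h1
  simp only [smul_smul (1 - t)⁻¹ (1 - t), inv_mul_cancel₀ hpos.ne', one_smul] at h2
  rw [h2, hkval, smul_neg, smul_smul, smul_smul, mul_assoc, mul_inv_cancel₀ (hn x).ne', mul_one]

end

end Pool.Agent.Helper13.Iso
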